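import Mathlib

set_option autoImplicit false

open MeasureTheory ProbabilityTheory Finset
open scoped NNReal ENNReal

namespace Pool.Agent.W828.LRG

/-! ### Events depending on finitely many coordinates -/

section dep

variable {ι : Type*}

/-- The event `A` depends only on the coordinates in `S`. -/
def Dep (S : Finset ι) (A : Set (ι → ℕ)) : Prop :=
  ∀ ω ω' : ι → ℕ, (∀ i ∈ S, ω i = ω' i) → ω ∈ A → ω' ∈ A

theorem Dep.mono {S T : Finset ι} {A : Set (ι → ℕ)} (h : Dep S A) (hST : S ⊆ T) : Dep T A :=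
  fun ω ω' hω hA => h ω ω' (fun i hi => hω i (hST hi)) hA

theorem Dep.compl {S : Finset ι} {A : Set (ι → ℕ)} (h : Dep S A) : Dep S Aᶜ :=
  fun ω ω' hω hA hA' => hA (h ω' ω (fun i hi => (hω i hi).symm) hA')

theorem Dep.inter {S : Finset ι} {A B : Set (ι → ℕ)} (hA : Dep S A) (hB : Dep S B) :
    Dep S (A ∩ B) :=
  fun ω ω' hω h => ⟨hA ω ω' hω h.1, hB ω ω' hω h.2⟩

theorem Dep.preimage {S : Finset ι} {A : Set (ι → ℕ)} (h : Dep S A) :
    A = (fun (ω : ι → ℕ) (i : S) => ω i) ⁻¹' ((fun (ω : ι → ℕ) (i : S) => ω i) '' A) := by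
  ext ω
  constructor
  · intro hω
    exact ⟨ω, hω, rfl⟩
  · rintro ⟨ω', hω', he⟩
    refine h ω' ω (fun i hi => ?_) hω'
    exact congrFun he ⟨i, hi⟩

theorem Dep.measurableSet {S : Finset ι} {A : Set (ι → ℕ)} (h : Dep S A) : MeasurableSet A := by
  rw [h.preimage]
  have hm : Measurable (fun (ω : ι → ℕ) (i : S) => ω i) :=
    measurable_pi_lambda _ (fun i => measurable_pi_apply _)
  exact hm (Set.to_countable _).measurableSet

theorem real_inter_of_dep {P : Measure (ι → ℕ)} [IsProbabilityMeasure P]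
    (hind : iIndepFun (fun i (ω : ι → ℕ) => ω i) P) {S T : Finset ι} (hST : Disjoint S T)
    {A B : Set (ι → ℕ)} (hA : Dep S A) (hB : Dep T B) :
    P.real (A ∩ B) = P.real A * P.real B := by
  have h := hind.indepFun_finset S T hST (fun i => measurable_pi_apply i)
  have h2 := h.measure_inter_preimage_eq_mul
    ((fun (ω : ι → ℕ) (i : S) => ω i) '' A) ((fun (ω : ι → ℕ) (i : T) => ω i) '' B)
    ((Set.to_countable _).measurableSet) ((Set.to_countable _).measurableSet)
  rw [← hA.preimage, ← hB.preimage] at h2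
  rw [measureReal_def, h2, ENNReal.toReal_mul]
  rfl

/-- Lower bound for `∃ v ∈ V`, edge `e v` is open and `B v` holds. -/
theorem or_lower {κ : Type*} [DecidableEq κ] {P : Measure (ι → ℕ)} [IsProbabilityMeasure P]
    (hind : iIndepFun (fun i (ω : ι → ℕ) => ω i) P) (T : Finset ι) (e : κ → ι)
    (B : κ → Set (ι → ℕ)) (p q : ℝ) (hp : 0 ≤ p) (hq1 : q ≤ 1)
    (V : Finset κ) (hT : ∀ v ∈ V, e v ∉ T) (hinj : Set.InjOn e V)
    (hB : ∀ v ∈ V, Dep T (B v)) (hPB : ∀ v ∈ V, p ≤ P.real (B v))
    (hPe : ∀ v ∈ V, q ≤ P.real {ω | 0 < ω (e v)}) :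
    p * (1 - (1 - q) ^ V.card) ≤ P.real {ω | ∃ v ∈ V, 0 < ω (e v) ∧ ω ∈ B v} := by
  classical
  induction V using Finset.induction_on with
  | empty => simp
  | insert v V hv ih =>
    have ih' := ih (fun w hw => hT w (mem_insert_of_mem hw))
      (hinj.mono (by simp)) (fun w hw => hB w (mem_insert_of_mem hw))
      (fun w hw => hPB w (mem_insert_of_mem hw)) (fun w hw => hPe w (mem_insert_of_mem hw))
    set X' : Set (ι → ℕ) := {ω | ∃ v ∈ V, 0 < ω (e v) ∧ ω ∈ B v} with hX'
    set A : Set (ι → ℕ) := {ω | 0 < ω (e v)} with hA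
    have hAdep : Dep {e v} A := by
      intro ω ω' hω hωA
      have := hω (e v) (by simp)
      simp only [hA, Set.mem_ofPred_eq] at hωA ⊢
      omega
    have hXdep : Dep (T ∪ V.image e) X' := by
      rintro ω ω' hω ⟨w, hw, hw1, hw2⟩
      refine ⟨w, hw, ?_, ?_⟩
      · rw [← hω (e w) (mem_union_right _ (mem_image_of_mem e hw))]
        exact hw1
      · exact hB w (mem_insert_of_mem hw) ω ω' (fun i hi => hω i (mem_union_left _ hi)) hw2
    have hd1 : Disjoint ({e v} : Finset ι) T := by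
      rw [disjoint_singleton_left]
      exact hT v (mem_insert_self _ _)
    have hd2 : Disjoint ({e v} : Finset ι) (T ∪ V.image e) := by
      rw [disjoint_singleton_left, mem_union, not_or]
      refine ⟨hT v (mem_insert_self _ _), ?_⟩
      rw [mem_image]
      rintro ⟨w, hw, hwv⟩
      have : w = v := hinj (by simp [hw]) (by simp) hwv
      exact hv (this ▸ hw)
    have h1 := real_inter_of_dep hind hd1 hAdep (hB v (mem_insert_self _ _))
    have h2 := real_inter_of_dep hind hd2 hAdep.compl hXdep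
    have hAm : MeasurableSet A := hAdep.measurableSet
    have hAc : P.real Aᶜ = 1 - P.real A := probReal_compl_eq_one_sub hAm
    have hsub : (A ∩ B v) ∪ (Aᶜ ∩ X') ⊆ {ω | ∃ w ∈ insert v V, 0 < ω (e w) ∧ ω ∈ B w} := by
      rintro ω (⟨h1, h2⟩ | ⟨h1, w, hw, hw1, hw2⟩)
      · exact ⟨v, mem_insert_self _ _, h1, h2⟩
      · exact ⟨w, mem_insert_of_mem hw, hw1, hw2⟩
    have hdisj : Disjoint (A ∩ B v) (Aᶜ ∩ X') :=
      (disjoint_compl_right (a := A)).mono Set.inter_subset_left Set.inter_subset_left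
    have hm2 : MeasurableSet (Aᶜ ∩ X') := hAm.compl.inter hXdep.measurableSet
    have hle := measureReal_mono (μ := P) hsub
    rw [measureReal_union hdisj hm2, h1, h2, hAc] at hle
    refine le_trans ?_ hle
    rw [card_insert_of_notMem hv, pow_succ]
    have hx := hPe v (mem_insert_self _ _)
    have hx1 : P.real A ≤ 1 := measureReal_le_one
    have hb := hPB v (mem_insert_self _ _)
    have hx0 : 0 ≤ P.real A := measureReal_nonneg
    set x := P.real A
    set y := (1 - q) ^ V.card
    have hy : 0 ≤ y := pow_nonneg (by linarith) _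
    have e1 : x * p ≤ x * P.real (B v) := mul_le_mul_of_nonneg_left hb hx0
    have e2 : (1 - x) * (p * (1 - y)) ≤ (1 - x) * P.real X' :=
      mul_le_mul_of_nonneg_left ih' (by linarith)
    have e3 : p * (1 - y * (1 - q)) ≤ x * p + (1 - x) * (p * (1 - y)) := by
      have : 0 ≤ p * (y * (x - q)) := by
        have : 0 ≤ x - q := by simpa [x, hA] using sub_nonneg.2 hx
        positivity
      nlinarith
    linarith

/-- Upper bound for the probability that none of the independent events `X i` occurs. -/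
theorem none_upper {κ : Type*} [DecidableEq κ] [DecidableEq ι] {P : Measure (ι → ℕ)}
    [IsProbabilityMeasure P]
    (hind : iIndepFun (fun i (ω : ι → ℕ) => ω i) P) (U : κ → Finset ι)
    (X : κ → Set (ι → ℕ)) (s : ℝ) (hs1 : s ≤ 1)
    (I : Finset κ) (hU : ∀ i ∈ I, ∀ j ∈ I, i ≠ j → Disjoint (U i) (U j))
    (hX : ∀ i ∈ I, Dep (U i) (X i)) (hPX : ∀ i ∈ I, s ≤ P.real (X i)) :
    P.real {ω | ∀ i ∈ I, ω ∉ X i} ≤ (1 - s) ^ I.card := by
  classical
  induction I using Finset.induction_on with
  | empty => simp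
  | insert v I hv ih =>
    have ih' := ih (fun i hi j hj => hU i (mem_insert_of_mem hi) j (mem_insert_of_mem hj))
      (fun i hi => hX i (mem_insert_of_mem hi)) (fun i hi => hPX i (mem_insert_of_mem hi))
    have hdep : Dep (I.biUnion U) {ω | ∀ i ∈ I, ω ∉ X i} := by
      intro ω ω' hω h i hi h'
      refine h i hi (hX i (mem_insert_of_mem hi) ω' ω (fun j hj => ?_) h')
      exact (hω j (mem_biUnion.2 ⟨i, hi, hj⟩)).symm
    have hd : Disjoint (U v) (I.biUnion U) := by
      rw [disjoint_biUnion_right]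
      intro i hi
      refine hU v (mem_insert_self _ _) i (mem_insert_of_mem hi) ?_
      rintro rfl
      exact hv hi
    have heq : {ω : ι → ℕ | ∀ i ∈ insert v I, ω ∉ X i} = (X v)ᶜ ∩ {ω | ∀ i ∈ I, ω ∉ X i} := by
      ext ω
      simp [Finset.mem_insert]
    have hXv := hX v (mem_insert_self _ _)
    rw [heq, real_inter_of_dep hind hd hXv.compl hdep, card_insert_of_notMem hv, pow_succ,
      probReal_compl_eq_one_sub hXv.measurableSet, mul_comm]
    have h1 := hPX v (mem_insert_self _ _)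
    have h2 : P.real (X v) ≤ 1 := measureReal_le_one
    exact mul_le_mul ih' (by linarith) (by linarith) (pow_nonneg (by linarith) _)

end dep

end Pool.Agent.W828.LRG
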