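import Mathlib

/-!
# Long-range percolation on countable groups: definitions

The random multigraph `Γ_μ(λ)` attached to a generating measure `μ` on a group `Γ`, and its
critical parameter.
-/

set_option autoImplicit false

open MeasureTheory ProbabilityTheory
open scoped NNReal ENNReal

namespace Pool.Agent.W828.LRG

/-- A generating measure on the group `Γ`: a probability measure on the (countable) group, given
by its point masses, which is symmetric and whose support generates `Γ`. -/
structure GeneratingMeasure (Γ : Type*) [Group Γ] where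
  /-- the mass of each group element -/
  mass : Γ → ℝ≥0
  /-- the total mass is one -/
  hasSum_one : HasSum mass 1
  /-- symmetry -/
  mass_inv : ∀ g : Γ, mass g⁻¹ = mass g
  /-- the support generates the group -/
  closure_support : Subgroup.closure {g : Γ | mass g ≠ 0} = ⊤

/-- The unordered pairs of distinct elements. -/
abbrev Pairs (Γ : Type*) : Type _ := {e : Sym2 Γ // ¬ e.IsDiag}

variable {Γ : Type*} [Group Γ]

/-- The weight `μ(g⁻¹h)` of the unordered pair `{g, h}`. -/
def GeneratingMeasure.weight (μ : GeneratingMeasure Γ) : Sym2 Γ → ℝ≥0 :=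
  Sym2.lift ⟨fun g h => μ.mass (g⁻¹ * h), fun g h => by
    have := μ.mass_inv (h⁻¹ * g)
    simpa using this⟩

/-- The law of the random multigraph `Γ_μ(λ)`, recorded by the numbers of edges joining the
unordered pairs: these numbers are independent and Poisson with mean `λ μ(g⁻¹h)`. -/
noncomputable def multigraphLaw (μ : GeneratingMeasure Γ) (lam : ℝ≥0) : Measure (Pairs Γ → ℕ) :=
  Measure.infinitePi fun e : Pairs Γ => poissonMeasure (lam * μ.weight e.1)

/-- The simple graph underlying a multigraph with `ω e` parallel edges at the pair `e`. -/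
def openGraph {Γ : Type*} (ω : Pairs Γ → ℕ) : SimpleGraph Γ :=
  SimpleGraph.fromEdgeSet {e | ∃ h : ¬ e.IsDiag, 0 < ω ⟨e, h⟩}

/-- The multigraph has an infinite connected component. -/
def HasInfiniteComponent {Γ : Type*} (ω : Pairs Γ → ℕ) : Prop :=
  ∃ c : (openGraph ω).ConnectedComponent, c.supp.Infinite

/-- The critical parameter: the supremum in `[0, ∞]` of the `λ > 0` for which `Γ_μ(λ)` almost
surely has no infinite component. -/
noncomputable def lambdaC (μ : GeneratingMeasure Γ) : ℝ≥0∞ :=
  sSup {x : ℝ≥0∞ | ∃ lam : ℝ≥0, 0 < lam ∧
    multigraphLaw μ lam {ω | HasInfiniteComponent ω} = 0 ∧ x = lam}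

end Pool.Agent.W828.LRG
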