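import Mathlib
import Pool.Agent.W828.LRGDefs
import Pool.Agent.W828.LRG1

set_option autoImplicit false

open MeasureTheory ProbabilityTheory Finset
open scoped NNReal ENNReal

namespace Pool.Agent.W828.LRG

variable {Γ : Type*}

theorem openGraph_adj {ω : Pairs Γ → ℕ} {a b : Γ} :
    (openGraph ω).Adj a b ↔ ∃ h : ¬ (s(a, b)).IsDiag, 0 < ω ⟨s(a, b), h⟩ := by
  rw [openGraph, SimpleGraph.fromEdgeSet_adj]
  constructor
  · rintro ⟨h, -⟩
    exact h
  · rintro h
    refine ⟨h, ?_⟩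
    obtain ⟨h, -⟩ := h
    simpa using h

section cluster

variable [DecidableEq Γ]

/-- The pairs with both ends in `R`. -/
def pairsIn (R : Finset Γ) : Finset (Pairs Γ) := R.sym2.subtype (fun e => ¬ e.IsDiag)

theorem mem_pairsIn {R : Finset Γ} {e : Pairs Γ} : e ∈ pairsIn R ↔ ∀ y ∈ e.1, y ∈ R := by
  simp [pairsIn, Finset.mem_sym2_iff]

/-- One step of an open path inside `R`. -/
def stepIn (ω : Pairs Γ → ℕ) (R : Finset Γ) (a b : Γ) : Prop :=
  a ∈ R ∧ b ∈ R ∧ (openGraph ω).Adj a b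

open Classical in
/-- The cluster of `x` inside `R`. -/
noncomputable def clus (ω : Pairs Γ → ℕ) (R : Finset Γ) (x : Γ) : Finset Γ :=
  R.filter (fun y => Relation.ReflTransGen (stepIn ω R) x y)

theorem stepIn_congr {R : Finset Γ} {ω ω' : Pairs Γ → ℕ} (h : ∀ e ∈ pairsIn R, ω e = ω' e) :
    stepIn ω R = stepIn ω' R := by
  funext a b
  rw [eq_iff_iff, stepIn, stepIn]
  constructor
  · rintro ⟨ha, hb, hab⟩
    refine ⟨ha, hb, ?_⟩
    rw [openGraph_adj] at hab ⊢
    obtain ⟨hd, hab⟩ := hab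
    refine ⟨hd, ?_⟩
    rw [← h _ (mem_pairsIn.2 ?_)]
    · exact hab
    · intro y hy
      simp only [Sym2.mem_iff] at hy
      rcases hy with rfl | rfl
      · exact ha
      · exact hb
  · rintro ⟨ha, hb, hab⟩
    refine ⟨ha, hb, ?_⟩
    rw [openGraph_adj] at hab ⊢
    obtain ⟨hd, hab⟩ := hab
    refine ⟨hd, ?_⟩
    rw [h _ (mem_pairsIn.2 ?_)]
    · exact hab
    · intro y hy
      simp only [Sym2.mem_iff] at hy
      rcases hy with rfl | rfl
      · exact ha
      · exact hb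

theorem clus_congr {R : Finset Γ} {ω ω' : Pairs Γ → ℕ} (h : ∀ e ∈ pairsIn R, ω e = ω' e)
    (x : Γ) : clus ω R x = clus ω' R x := by
  rw [clus, clus, stepIn_congr h]

theorem dep_clus (R : Finset Γ) (x : Γ) (p : Finset Γ → Prop) :
    Dep (pairsIn R) {ω | p (clus ω R x)} := by
  intro ω ω' h hω
  simp only [Set.mem_ofPred_eq] at hω ⊢
  rwa [← clus_congr h]

omit [DecidableEq Γ] in
theorem clus_subset (ω : Pairs Γ → ℕ) (R : Finset Γ) (x : Γ) : clus ω R x ⊆ R := by
  classical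
  rw [clus]
  exact filter_subset _ _

omit [DecidableEq Γ] in
theorem mem_clus {ω : Pairs Γ → ℕ} {R : Finset Γ} {x y : Γ} :
    y ∈ clus ω R x ↔ y ∈ R ∧ Relation.ReflTransGen (stepIn ω R) x y := by
  classical
  rw [clus, mem_filter]

omit [DecidableEq Γ] in
theorem self_mem_clus {ω : Pairs Γ → ℕ} {R : Finset Γ} {x : Γ} (hx : x ∈ R) :
    x ∈ clus ω R x := mem_clus.2 ⟨hx, Relation.ReflTransGen.refl⟩

omit [DecidableEq Γ] in
theorem path_mono {ω : Pairs Γ → ℕ} {R R' : Finset Γ} (h : R ⊆ R') {x y : Γ}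
    (hxy : Relation.ReflTransGen (stepIn ω R) x y) :
    Relation.ReflTransGen (stepIn ω R') x y :=
  Relation.ReflTransGen.mono (fun _ _ hab => ⟨h hab.1, h hab.2.1, hab.2.2⟩) _ _ hxy

end cluster

section group

variable [Group Γ] [DecidableEq Γ]

/-- Left translate. -/
def tr (x : Γ) (R : Finset Γ) : Finset Γ := R.image (fun r => x * r)

theorem mem_tr {x y : Γ} {R : Finset Γ} : y ∈ tr x R ↔ x⁻¹ * y ∈ R := by
  rw [tr, mem_image]
  constructor
  · rintro ⟨r, hr, rfl⟩
    simpa using hr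
  · intro h
    exact ⟨_, h, by simp⟩

/-- The set `R a R`. -/
def mid (R : Finset Γ) (a : Γ) : Finset Γ := (R ×ˢ R).image (fun r => r.1 * a * r.2)

theorem mem_mid {R : Finset Γ} {a y : Γ} :
    y ∈ mid R a ↔ ∃ r ∈ R, ∃ r' ∈ R, r * a * r' = y := by
  rw [mid, mem_image]
  constructor
  · rintro ⟨⟨r, r'⟩, h, rfl⟩
    rw [mem_product] at h
    exact ⟨r, h.1, r', h.2, rfl⟩
  · rintro ⟨r, h, r', h', rfl⟩
    exact ⟨(r, r'), mem_product.2 ⟨h, h'⟩, rfl⟩

theorem step {P : Measure (Pairs Γ → ℕ)} [IsProbabilityMeasure P]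
    (hind : iIndepFun (fun i (ω : Pairs Γ → ℕ) => ω i) P)
    (R : Finset Γ) (h1 : (1 : Γ) ∈ R) {m n : ℕ} (a : Fin m → Fin n → Γ)
    (hd0 : ∀ b i, Disjoint R (mid R (a b i)))
    (hd : ∀ b i b' i', (b, i) ≠ (b', i') → Disjoint (mid R (a b i)) (mid R (a b' i')))
    (R' : Finset Γ) (hR : R ⊆ R') (hR' : ∀ b i, mid R (a b i) ⊆ R')
    (M : ℕ) (p q : ℝ) (hp : 0 ≤ p) (hp1 : p ≤ 1) (hq0 : 0 ≤ q) (hq1 : q ≤ 1)
    (hP : ∀ x, p ≤ P.real {ω | M ≤ (clus ω (tr x R) x).card})
    (hq : ∀ (v : Γ) (b : Fin m) (i : Fin n) (h : ¬ (s(v, v * a b i)).IsDiag),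
      q ≤ P.real {ω | 0 < ω ⟨s(v, v * a b i), h⟩}) (x : Γ) :
    p * (1 - m * (1 - p * (1 - (1 - q) ^ M)) ^ n) ≤
      P.real {ω | m * M ≤ (clus ω (tr x R') x).card} := by
  classical
  have ha : ∀ b i, a b i ≠ 1 := by
    intro b i h
    have := Finset.disjoint_left.1 (hd0 b i) h1
    exact this (mem_mid.2 ⟨1, h1, 1, h1, by simp [h]⟩)
  have hnd : ∀ (v : Γ) b i, ¬ (s(v, v * a b i)).IsDiag := by
    intro v b i h
    simp at h
    exact ha b i h
  set Q0 : Finset Γ := tr x R with hQ0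
  let Q : Fin m → Fin n → Finset Γ := fun b i => tr x (mid R (a b i))
  have hQd0 : ∀ b i y, y ∈ Q0 → y ∈ Q b i → False := by
    intro b i y hy hy'
    rw [hQ0, mem_tr] at hy
    exact Finset.disjoint_left.1 (hd0 b i) hy (mem_tr.1 hy')
  have hQd : ∀ b i b' i' y, y ∈ Q b i → y ∈ Q b' i' → (b, i) = (b', i') := by
    intro b i b' i' y hy hy'
    by_contra hne
    exact Finset.disjoint_left.1 (hd b i b' i' hne) (mem_tr.1 hy) (mem_tr.1 hy')
  -- the translate of `R` by `v a` lies in `Q b i`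
  have hsub : ∀ v ∈ Q0, ∀ b i, tr (v * a b i) R ⊆ Q b i := by
    intro v hv b i y hy
    rw [mem_tr] at hy
    rw [hQ0, mem_tr] at hv
    show y ∈ tr x (mid R (a b i))
    rw [mem_tr, mem_mid]
    exact ⟨_, hv, _, hy, by group⟩
  let U : Fin m × Fin n → Finset (Pairs Γ) := fun j => pairsIn (Q0 ∪ Q j.1 j.2) \ pairsIn Q0
  have hUd : ∀ j j', j ≠ j' → Disjoint (U j) (U j') := by
    intro j j' hne
    rw [Finset.disjoint_left]
    intro e he he'
    rw [mem_sdiff, mem_pairsIn] at he he'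
    apply he.2
    rw [mem_pairsIn]
    intro y hy
    have h1 := he.1 y hy
    have h2 := he'.1 y hy
    rw [mem_union] at h1 h2
    rcases h1 with h1 | h1
    · exact h1
    rcases h2 with h2 | h2
    · exact h2
    exact absurd (hQd _ _ _ _ y h1 h2) hne
  let X : Finset Γ → Fin m × Fin n → Set (Pairs Γ → ℕ) := fun V j =>
    {ω | ∃ v ∈ V, 0 < ω ⟨s(v, v * a j.1 j.2), hnd v j.1 j.2⟩ ∧
      ω ∈ {ω | M ≤ (clus ω (tr (v * a j.1 j.2) R) (v * a j.1 j.2)).card}}
  have hmemQ : ∀ v ∈ Q0, ∀ b i, v * a b i ∈ Q b i := by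
    intro v hv b i
    apply hsub v hv
    rw [mem_tr]
    simpa using h1
  have hBdep : ∀ v ∈ Q0, ∀ b i, Dep (pairsIn (Q b i))
      {ω | M ≤ (clus ω (tr (v * a b i) R) (v * a b i)).card} := by
    intro v hv b i
    refine (dep_clus (tr (v * a b i) R) (v * a b i) (fun c => M ≤ c.card)).mono ?_
    intro e he
    rw [mem_pairsIn] at he ⊢
    exact fun y hy => hsub v hv b i (he y hy)
  have hXdep : ∀ V ⊆ Q0, ∀ j, Dep (U j) (X V j) := by
    rintro V hV j ω ω' hω ⟨v, hv, hv1, hv2⟩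
    refine ⟨v, hv, ?_, ?_⟩
    · rw [← hω _ ?_]
      · exact hv1
      · rw [mem_sdiff, mem_pairsIn, mem_pairsIn]
        constructor
        · intro y hy
          simp only [Sym2.mem_iff] at hy
          rcases hy with rfl | rfl
          · exact mem_union_left _ (hV hv)
          · exact mem_union_right _ (hmemQ v (hV hv) _ _)
        · intro h
          exact hQd0 _ _ _ (h (v * a j.1 j.2) (by simp)) (hmemQ v (hV hv) _ _)
    · refine hBdep v (hV hv) _ _ ω ω' (fun e he => hω e ?_) hv2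
      rw [mem_sdiff, mem_pairsIn, mem_pairsIn]
      rw [mem_pairsIn] at he
      refine ⟨fun y hy => mem_union_right _ (he y hy), fun h => ?_⟩
      induction' hh : e.1 with y z
      have hy : y ∈ e.1 := by rw [hh]; simp
      exact hQd0 _ _ _ (h y hy) (he y hy)
  set s : ℝ := p * (1 - (1 - q) ^ M) with hs
  have hqM : (1 - q) ^ M ≤ 1 := pow_le_one₀ (by linarith) (by linarith)
  have hqM0 : 0 ≤ (1 - q) ^ M := pow_nonneg (by linarith) _
  have hs1 : s ≤ 1 := by
    rw [hs]
    nlinarith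
  have hXP : ∀ V ⊆ Q0, M ≤ V.card → ∀ j, s ≤ P.real (X V j) := by
    intro V hV hM j
    have h := or_lower hind (pairsIn (Q j.1 j.2))
      (fun v => (⟨s(v, v * a j.1 j.2), hnd v j.1 j.2⟩ : Pairs Γ))
      (fun v => {ω | M ≤ (clus ω (tr (v * a j.1 j.2) R) (v * a j.1 j.2)).card}) p q hp hq1 V
      ?_ ?_ (fun v hv => hBdep v (hV hv) _ _) (fun v _ => hP _) (fun v _ => hq v _ _ _)
    · refine le_trans ?_ h
      rw [hs]
      have : (1 - q) ^ V.card ≤ (1 - q) ^ M :=
        pow_le_pow_of_le_one (by linarith) (by linarith) hM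
      nlinarith
    · intro v hv h
      rw [mem_pairsIn] at h
      exact hQd0 _ _ _ (hV hv) (h v (by simp))
    · intro v hv w hw h
      simp only [Subtype.mk.injEq, Sym2.eq_iff] at h
      rcases h with ⟨h, -⟩ | ⟨h, -⟩
      · exact h
      · exfalso
        refine hQd0 j.1 j.2 v (hV hv) ?_
        rw [h]
        exact hmemQ w (hV hw) _ _
  -- the good event for the outer layer
  let T : Finset Γ → Set (Pairs Γ → ℕ) := fun V => {ω | ∀ b : Fin m, ∃ i : Fin n, ω ∈ X V (b, i)}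
  have hTdep : ∀ V ⊆ Q0, Dep (univ.biUnion U) (T V) := by
    intro V hV ω ω' hω hT b
    obtain ⟨i, hi⟩ := hT b
    refine ⟨i, hXdep V hV (b, i) ω ω' (fun e he => hω e ?_) hi⟩
    exact mem_biUnion.2 ⟨(b, i), mem_univ _, he⟩
  have hTP : ∀ V ⊆ Q0, M ≤ V.card → 1 - m * (1 - s) ^ n ≤ P.real (T V) := by
    intro V hV hM
    have hc : (T V)ᶜ ⊆ ⋃ b : Fin m, {ω | ∀ i ∈ (univ : Finset (Fin n)), ω ∉ X V (b, i)} := by
      intro ω hω
      simp only [T, Set.mem_compl_iff, Set.mem_ofPred_eq, not_forall, not_exists] at hω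
      obtain ⟨b, hb⟩ := hω
      exact Set.mem_iUnion.2 ⟨b, fun i _ => hb i⟩
    have h1 : P.real (T V)ᶜ ≤ ∑ b : Fin m, (1 - s) ^ n := by
      refine (measureReal_mono hc).trans ((measureReal_iUnion_fintype_le _).trans ?_)
      refine Finset.sum_le_sum fun b _ => ?_
      have := none_upper hind (fun i => U (b, i)) (fun i => X V (b, i)) s hs1 (univ : Finset (Fin n))
        (fun i _ j _ hij => hUd _ _ (by simpa using hij)) (fun i _ => hXdep V hV _)
        (fun i _ => hXP V hV hM _)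
      simpa using this
    have h2 : P.real (T V)ᶜ = 1 - P.real (T V) :=
      probReal_compl_eq_one_sub (hTdep V hV).measurableSet
    simp at h1
    linarith
  have hm0 : 0 ≤ P.real {ω | m * M ≤ (clus ω (tr x R') x).card} := measureReal_nonneg
  by_cases hneg : 1 - m * (1 - s) ^ n ≤ 0
  · exact le_trans (mul_nonpos_of_nonneg_of_nonpos hp hneg) hm0
  rw [not_le] at hneg
  -- decomposition over the cluster of `x` inside `Q0`
  let F : Finset (Finset Γ) := Q0.powerset.filter (fun V => M ≤ V.card)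
  have hinc : (⋃ V ∈ F, ({ω | clus ω Q0 x = V} ∩ T V)) ⊆
      {ω | m * M ≤ (clus ω (tr x R') x).card} := by
    intro ω hω
    simp only [Set.mem_iUnion] at hω
    obtain ⟨V, hV, hω1, hω2⟩ := hω
    simp only [Set.mem_ofPred_eq] at hω1
    have hV' : V ⊆ Q0 := mem_powerset.1 (mem_filter.1 hV).1
    choose i hi using hω2
    choose v hv hv1 hv2 using hi
    have hxR : x ∈ Q0 := by rw [hQ0, mem_tr]; simpa using h1
    have hQ0R' : Q0 ⊆ tr x R' := by
      intro y hy
      rw [hQ0, mem_tr] at hy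
      rw [mem_tr]
      exact hR hy
    have hQR' : ∀ b i, Q b i ⊆ tr x R' := by
      intro b i y hy
      have hy' := mem_tr.1 hy
      rw [mem_tr]
      exact hR' b i hy'
    let K : Fin m → Finset Γ := fun b => clus ω (tr (v b * a b (i b)) R) (v b * a b (i b))
    have hKQ : ∀ b, K b ⊆ Q b (i b) := fun b =>
      (clus_subset _ _ _).trans (hsub (v b) (hV' (hv b)) b (i b))
    have hKc : ∀ b, M ≤ (K b).card := fun b => hv2 b
    have hKsub : ∀ b, K b ⊆ clus ω (tr x R') x := by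
      intro b y hy
      have hyQ := hKQ b hy
      rw [mem_clus] at hy ⊢
      refine ⟨hQR' _ _ hyQ, ?_⟩
      have hp1 : Relation.ReflTransGen (stepIn ω (tr x R')) x (v b) := by
        have : v b ∈ clus ω Q0 x := by rw [hω1]; exact hv b
        exact path_mono hQ0R' (mem_clus.1 this).2
      have hp2 : stepIn ω (tr x R') (v b) (v b * a b (i b)) := by
        refine ⟨hQ0R' (hV' (hv b)), hQR' _ _ (hmemQ _ (hV' (hv b)) _ _), ?_⟩
        rw [openGraph_adj]
        exact ⟨hnd _ _ _, hv1 b⟩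
      have hp3 : Relation.ReflTransGen (stepIn ω (tr x R')) (v b * a b (i b)) y :=
        path_mono ((hsub (v b) (hV' (hv b)) b (i b)).trans (hQR' _ _)) hy.2
      exact (hp1.tail hp2).trans hp3
    have hcard : (univ.biUnion K).card = ∑ b, (K b).card := by
      apply card_biUnion
      intro b _ b' _ hbb
      rw [Function.onFun, Finset.disjoint_left]
      intro y hy hy'
      have := hQd _ _ _ _ y (hKQ b hy) (hKQ b' hy')
      exact hbb (Prod.ext_iff.1 this).1
    show m * M ≤ (clus ω (tr x R') x).card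
    calc m * M = ∑ b : Fin m, M := by simp
      _ ≤ ∑ b, (K b).card := Finset.sum_le_sum fun b _ => hKc b
      _ = (univ.biUnion K).card := hcard.symm
      _ ≤ _ := card_le_card (by
        intro y hy
        obtain ⟨b, -, hb⟩ := mem_biUnion.1 hy
        exact hKsub b hb)
  refine le_trans ?_ (measureReal_mono hinc)
  have hpw : (F : Set (Finset Γ)).PairwiseDisjoint (fun V => {ω | clus ω Q0 x = V} ∩ T V) := by
    intro V _ W _ hVW
    rw [Function.onFun, Set.disjoint_left]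
    rintro ω ⟨h1, -⟩ ⟨h2, -⟩
    exact hVW (h1.symm.trans h2)
  have hpw' : (F : Set (Finset Γ)).PairwiseDisjoint (fun V => {ω | clus ω Q0 x = V}) := by
    intro V _ W _ hVW
    rw [Function.onFun, Set.disjoint_left]
    rintro ω h1 h2
    exact hVW (h1.symm.trans h2)
  rw [measureReal_biUnion_finset hpw (fun V hV => ?_)]
  · have hterm : ∀ V ∈ F, P.real {ω | clus ω Q0 x = V} * (1 - m * (1 - s) ^ n) ≤
        P.real ({ω | clus ω Q0 x = V} ∩ T V) := by
      intro V hV
      have hV' : V ⊆ Q0 := mem_powerset.1 (mem_filter.1 hV).1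
      rw [real_inter_of_dep hind (S := pairsIn Q0) (T := univ.biUnion U) ?_
        (dep_clus Q0 x (fun c => c = V)) (hTdep V hV')]
      · exact mul_le_mul_of_nonneg_left (hTP V hV' (mem_filter.1 hV).2) measureReal_nonneg
      · rw [disjoint_biUnion_right]
        intro j _
        exact disjoint_sdiff
    refine le_trans ?_ (Finset.sum_le_sum hterm)
    rw [← Finset.sum_mul]
    refine mul_le_mul_of_nonneg_right ?_ hneg.le
    rw [← measureReal_biUnion_finset hpw' (fun V _ => (dep_clus Q0 x (fun c => c = V)).measurableSet)]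
    refine (hP x).trans (measureReal_mono ?_ (measure_ne_top _ _))
    intro ω hω
    simp only [Set.mem_iUnion]
    refine ⟨clus ω Q0 x, mem_filter.2 ⟨mem_powerset.2 (clus_subset _ _ _), hω⟩, rfl⟩
  · have hV' : V ⊆ Q0 := mem_powerset.1 (mem_filter.1 hV).1
    exact (dep_clus Q0 x (fun c => c = V)).measurableSet.inter (hTdep V hV').measurableSet

end group

end Pool.Agent.W828.LRG
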