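import Mathlib
import Pool.Agent.W828.LRG2

set_option autoImplicit false

open MeasureTheory ProbabilityTheory Finset
open scoped NNReal ENNReal

namespace Pool.Agent.W828.LRG

variable {Γ : Type*} [Group Γ]

/-! ### Choosing far apart elements -/

theorem exists_gens [DecidableEq Γ] [Infinite Γ] (R : Finset Γ) :
    ∃ f : ℕ → Γ, (∀ n, Disjoint R (mid R (f n))) ∧
      Pairwise (fun m n => Disjoint (mid R (f m)) (mid R (f n))) := by
  have key : ∀ F : Finset Γ, ∃ a : Γ, Disjoint F (mid R a) := by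
    intro F
    obtain ⟨a, ha⟩ := Infinite.exists_notMem_finset
      ((R ×ˢ (F ×ˢ R)).image (fun t => t.1⁻¹ * t.2.1 * t.2.2⁻¹))
    refine ⟨a, ?_⟩
    rw [Finset.disjoint_left]
    intro y hy hy'
    rw [mem_mid] at hy'
    obtain ⟨r, hr, r', hr', rfl⟩ := hy'
    apply ha
    rw [mem_image]
    exact ⟨(r, r * a * r', r'), by simp [hr, hr', hy], by group⟩
  have : Std.Symm (fun a b : Γ => Disjoint (mid R a) (mid R b)) := ⟨fun a b h => h.symm⟩
  obtain ⟨f, hf1, hf2⟩ := exists_seq_of_forall_finset_exists'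
    (fun a : Γ => Disjoint R (mid R a)) (fun a b => Disjoint (mid R a) (mid R b)) (by
      intro s hs
      obtain ⟨a, ha⟩ := key (R ∪ s.biUnion (mid R))
      rw [disjoint_union_left, disjoint_biUnion_left] at ha
      exact ⟨a, ha.1, fun x hx => ha.2 x hx⟩)
  exact ⟨f, hf1, fun m n hmn => hf2 hmn⟩

open Classical in
/-- A sequence of far apart group elements, relative to `R`. -/
noncomputable def gen [Infinite Γ] (R : Finset Γ) : ℕ → Γ := (exists_gens R).choose

/-- The number of generators in one block of level `k`. -/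
def nn (k : ℕ) : ℕ := 64 * 4 ^ k

open Classical in
/-- The regions. -/
noncomputable def Rk (Γ : Type*) [Group Γ] [Infinite Γ] : ℕ → Finset Γ
  | 0 => {1}
  | k + 1 => Rk Γ k ∪ (univ : Finset (Fin 4 × Fin (nn k))).biUnion
      (fun j => mid (Rk Γ k) (gen (Rk Γ k) (Nat.pair j.1 j.2)))

/-- The index type of the chosen generators. -/
abbrev Idx : Type := Σ k : ℕ, Fin 4 × Fin (nn k)

/-- The chosen generators. -/
noncomputable def AA (Γ : Type*) [Group Γ] [Infinite Γ] (i : Idx) : Γ :=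
  gen (Rk Γ i.1) (Nat.pair i.2.1 i.2.2)

/-- The weights of the chosen generators. -/
noncomputable def ww (i : Idx) : ℝ≥0∞ := ENNReal.ofReal (1 / (256 * 8 ^ i.1))

theorem tsum_ww : ∑' i : Idx, ww i ≠ ∞ := by
  rw [ENNReal.tsum_sigma' ww]
  have : ∀ k : ℕ, ∑' j : Fin 4 × Fin (nn k), ww ⟨k, j⟩ = ENNReal.ofReal ((1 / 2) ^ k) := by
    intro k
    have hc : (univ : Finset (Fin 4 × Fin (nn k))).card = 4 * (64 * 4 ^ k) := by
      rw [Finset.card_univ, Fintype.card_prod, Fintype.card_fin, Fintype.card_fin, nn]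
    rw [tsum_fintype]
    simp only [ww, Finset.sum_const]
    rw [hc, ← ENNReal.ofReal_nsmul]
    congr 1
    rw [nsmul_eq_mul]
    push_cast
    have h8 : (8 : ℝ) ^ k = 4 ^ k * 2 ^ k := by rw [← mul_pow]; norm_num
    rw [h8]
    have : (4 : ℝ) ^ k ≠ 0 := by positivity
    field_simp
    ring_nf
    rw [← mul_pow]
    norm_num
  simp_rw [this]
  rw [← ENNReal.ofReal_tsum_of_nonneg (fun n => by positivity)
    (summable_geometric_of_lt_one (by norm_num) (by norm_num))]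
  exact ENNReal.ofReal_ne_top

/-- Every summable nonnegative function is dominated by a multiple of a generating measure. -/
theorem exists_gm [Countable Γ] (h : Γ → ℝ≥0∞) (hs : ∑' g, h g ≠ ∞) :
    ∃ (μ : GeneratingMeasure Γ) (Z : ℝ≥0), ∀ g, h g ≤ Z * μ.mass g := by
  obtain ⟨ν, hν, c, hc, -⟩ := NNReal.exists_pos_sum_of_countable (one_ne_zero (α := ℝ≥0)) Γ
  have hνs : ∑' g, (ν g : ℝ≥0∞) ≠ ∞ := ENNReal.tsum_coe_ne_top_iff_summable.2 hc.summable
  set f : Γ → ℝ≥0∞ := fun g => (h g + h g⁻¹) + (ν g + ν g⁻¹) with hf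
  have hinv : ∀ u : Γ → ℝ≥0∞, ∑' g, u g⁻¹ = ∑' g, u g := fun u => (Equiv.inv Γ).tsum_eq u
  have hfs : ∑' g, f g ≠ ∞ := by
    rw [hf, ENNReal.tsum_add, ENNReal.tsum_add, ENNReal.tsum_add, hinv h,
      hinv (fun g => (ν g : ℝ≥0∞))]
    simp [hs, hνs]
  have hfne : ∀ g, f g ≠ ∞ := fun g => ENNReal.ne_top_of_tsum_ne_top hfs g
  have hf0 : ∀ g, f g ≠ 0 := by
    intro g h0
    have h1 : (ν g : ℝ≥0∞) ≤ f g := by
      rw [hf]
      exact le_trans le_self_add (le_add_self)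
    rw [h0] at h1
    have h2 := hν g
    simp at h1
    exact h2.ne' h1
  set Z : ℝ≥0∞ := ∑' g, f g with hZ
  have hZ0 : Z ≠ 0 := by
    intro h0
    exact hf0 1 (ENNReal.tsum_eq_zero.1 h0 1)
  refine ⟨⟨fun g => (f g / Z).toNNReal, ?_, ?_, ?_⟩, Z.toNNReal, ?_⟩
  · have hne : ∀ g, f g / Z ≠ ∞ := fun g => (ENNReal.div_lt_top (hfne g) hZ0).ne
    have h1 : ∑' g, f g / Z = 1 := by
      simp_rw [div_eq_mul_inv]
      rw [ENNReal.tsum_mul_right, ← div_eq_mul_inv]
      exact ENNReal.div_self hZ0 hfs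
    have h2 : ∑' g, (((f g / Z).toNNReal : ℝ≥0) : ℝ≥0∞) = 1 := by
      rw [← h1]
      exact tsum_congr fun g => ENNReal.coe_toNNReal (hne g)
    have h3 : Summable (fun g => (f g / Z).toNNReal) :=
      ENNReal.tsum_coe_ne_top_iff_summable.1 (by rw [h2]; exact ENNReal.one_ne_top)
    have h4 := h3.hasSum
    rw [← ENNReal.coe_tsum h3] at h2
    have h5 : ∑' g, (f g / Z).toNNReal = 1 := by exact_mod_cast h2
    rwa [h5] at h4
  · intro g
    have : f g⁻¹ = f g := by
      simp only [hf, inv_inv]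
      rw [add_comm (h g⁻¹), add_comm (ν g⁻¹ : ℝ≥0∞)]
    rw [this]
  · rw [eq_top_iff]
    intro g _
    apply Subgroup.subset_closure
    simp only [Set.mem_ofPred_eq]
    intro h0
    rw [ENNReal.toNNReal_eq_zero_iff] at h0
    rcases h0 with h0 | h0
    · rw [ENNReal.div_eq_zero_iff] at h0
      rcases h0 with h0 | h0
      · exact hf0 g h0
      · exact hfs h0
    · exact (ENNReal.div_lt_top (hfne g) hZ0).ne h0
  · intro g
    show h g ≤ (Z.toNNReal : ℝ≥0∞) * ((f g / Z).toNNReal : ℝ≥0)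
    rw [ENNReal.coe_toNNReal hfs, ENNReal.coe_toNNReal (ENNReal.div_lt_top (hfne g) hZ0).ne,
      ENNReal.mul_div_cancel hZ0 hfs]
    rw [hf]
    exact le_trans le_self_add le_self_add

/-- The measure used: it gives enough mass to all chosen generators. -/
theorem exists_measure (Γ : Type*) [Group Γ] [Countable Γ] [Infinite Γ] :
    ∃ (μ : GeneratingMeasure Γ) (Z : ℝ≥0), ∀ i : Idx, ww i ≤ Z * μ.mass (AA Γ i) := by
  classical
  obtain ⟨μ, Z, h⟩ := exists_gm (Γ := Γ) (fun g => ∑' i : Idx, if AA Γ i = g then ww i else 0) (by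
    rw [ENNReal.tsum_comm]
    have : ∀ i : Idx, ∑' g : Γ, (if AA Γ i = g then ww i else 0) = ww i := by
      intro i
      rw [tsum_eq_single (AA Γ i)]
      · simp
      · intro g hg
        rw [if_neg hg.symm]
    simp_rw [this]
    exact tsum_ww)
  refine ⟨μ, Z, fun i => (le_trans ?_ (h (AA Γ i)))⟩
  refine le_trans ?_ (ENNReal.le_tsum i)
  simp

/-! ### The numbers -/

theorem num1 (k : ℕ) : 4 * Real.exp (-(4 * 2 ^ k)) ≤ 1 / 2 ^ (k + 2) := by
  have h1 : (2 : ℝ) ^ (k + 4) ≤ Real.exp (4 * 2 ^ k) := by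
    have h2 : (2 : ℝ) ≤ Real.exp 1 := by
      have := Real.add_one_le_exp (1 : ℝ)
      linarith
    have h3 : Real.exp (4 * 2 ^ k) = Real.exp 1 ^ (4 * 2 ^ k) := by
      rw [← Real.exp_nat_mul]
      push_cast
      ring_nf
    have h4 : k + 4 ≤ 4 * 2 ^ k := by
      have := Nat.lt_two_pow_self (n := k)
      omega
    rw [h3]
    calc (2 : ℝ) ^ (k + 4) ≤ 2 ^ (4 * 2 ^ k) := pow_le_pow_right₀ (by norm_num) h4
      _ ≤ _ := pow_le_pow_left₀ (by norm_num) h2 _
  rw [Real.exp_neg, ← div_eq_mul_inv, div_le_div_iff₀ (Real.exp_pos _) (by positivity)]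
  calc (4 : ℝ) * 2 ^ (k + 2) = 2 ^ (k + 4) := by ring
    _ ≤ 1 * Real.exp (4 * 2 ^ k) := by rw [one_mul]; exact h1

theorem num2 (x : ℝ) (hx : 0 ≤ x) (hx1 : x ≤ 1) : x / 2 ≤ 1 - Real.exp (-x) := by
  have h1 : Real.exp (-x) ≤ 1 / (1 + x) := by
    rw [Real.exp_neg, ← one_div]
    apply one_div_le_one_div_of_le (by linarith)
    have := Real.add_one_le_exp x
    linarith
  have h2 : 1 / (1 + x) ≤ 1 - x / 2 := by
    rw [div_le_iff₀ (by linarith)]
    nlinarith
  linarith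

theorem num3 (k : ℕ) (p : ℝ) (hp : 1 / 2 ≤ p) (hp1 : p ≤ 1) :
    4 * (1 - p * (1 - (1 - (1 - Real.exp (-(1 / (4 * 8 ^ k))))) ^ (4 ^ k))) ^ nn k ≤
      1 / 2 ^ (k + 2) := by
  have h1 : (1 - (1 - Real.exp (-(1 / (4 * 8 ^ k))))) ^ (4 ^ k) =
      Real.exp (-(1 / (4 * 2 ^ k))) := by
    rw [sub_sub_cancel, ← Real.exp_nat_mul]
    congr 1
    push_cast
    have h8 : (8 : ℝ) ^ k = 4 ^ k * 2 ^ k := by rw [← mul_pow]; norm_num
    rw [h8]
    have : (4 : ℝ) ^ k ≠ 0 := by positivity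
    field_simp
  rw [h1]
  set x : ℝ := 1 / (4 * 2 ^ k) with hx
  have hx0 : 0 < x := by positivity
  have h2k : (1 : ℝ) ≤ 2 ^ k := one_le_pow₀ (by norm_num)
  have hx1 : x ≤ 1 := by
    rw [hx, div_le_one (by positivity)]
    linarith
  have h2 := num2 x hx0.le hx1
  have h3 : Real.exp (-x) ≤ 1 := Real.exp_le_one_iff.2 (by linarith)
  have h4 : 0 < Real.exp (-x) := Real.exp_pos _
  set s : ℝ := p * (1 - Real.exp (-x)) with hs
  have hs1 : x / 4 ≤ s := by
    rw [hs]
    nlinarith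
  have hs2 : s ≤ 1 := by
    rw [hs]
    nlinarith
  have h5 : (1 - s) ^ nn k ≤ Real.exp (-(4 * 2 ^ k)) := by
    calc (1 - s) ^ nn k ≤ Real.exp (-s) ^ nn k := by
          apply pow_le_pow_left₀ (by linarith)
          have := Real.add_one_le_exp (-s)
          linarith
      _ = Real.exp (-(nn k * s)) := by
          rw [← Real.exp_nat_mul]
          ring_nf
      _ ≤ _ := by
          apply Real.exp_le_exp.2
          have h6 : (nn k : ℝ) * (x / 4) ≤ nn k * s := mul_le_mul_of_nonneg_left hs1 (by positivity)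
          have h7 : (nn k : ℝ) * (x / 4) = 4 * 2 ^ k := by
            rw [hx, nn]
            push_cast
            have h4 : (4 : ℝ) ^ k = 2 ^ k * 2 ^ k := by rw [← mul_pow]; norm_num
            rw [h4]
            field_simp
            ring
          linarith
  calc 4 * (1 - s) ^ nn k ≤ 4 * Real.exp (-(4 * 2 ^ k)) := by linarith
    _ ≤ _ := num1 k

end Pool.Agent.W828.LRG
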