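import Mathlib
import Pool.Agent.W828.LRG3

set_option autoImplicit false

open MeasureTheory ProbabilityTheory Finset
open scoped NNReal ENNReal

namespace Pool.Agent.W828.LRG

variable {Γ : Type*} [Group Γ]

instance (μ : GeneratingMeasure Γ) (lam : ℝ≥0) : IsProbabilityMeasure (multigraphLaw μ lam) := by
  unfold multigraphLaw
  infer_instance

theorem indep_law (μ : GeneratingMeasure Γ) (lam : ℝ≥0) :
    iIndepFun (fun i (ω : Pairs Γ → ℕ) => ω i) (multigraphLaw μ lam) := by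
  unfold multigraphLaw
  exact iIndepFun_infinitePi (X := fun _ n => n) (fun _ => measurable_id)

theorem law_open (μ : GeneratingMeasure Γ) (lam : ℝ≥0) (e : Pairs Γ) :
    (multigraphLaw μ lam).real {ω | 0 < ω e} = 1 - Real.exp (-(lam * μ.weight e.1)) := by
  have h1 : {ω : Pairs Γ → ℕ | 0 < ω e} = {ω | ω e = 0}ᶜ := by
    ext ω
    simp [Nat.pos_iff_ne_zero]
  have h2 : {ω : Pairs Γ → ℕ | ω e = 0} = (fun ω : Pairs Γ → ℕ => ω e) ⁻¹' {0} := by
    ext ω
    simp
  have hm : MeasurableSet {ω : Pairs Γ → ℕ | ω e = 0} := by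
    rw [h2]
    exact measurable_pi_apply e (measurableSet_singleton 0)
  rw [h1, probReal_compl_eq_one_sub hm, h2]
  congr 1
  have h3 := (measurePreserving_eval_infinitePi
    (fun e : Pairs Γ => poissonMeasure (lam * μ.weight e.1)) e)
  have h4 := h3.measureReal_preimage (s := {0}) (measurableSet_singleton 0).nullMeasurableSet
  rw [multigraphLaw]
  have h5 : (fun ω : Pairs Γ → ℕ => ω e) ⁻¹' {0} = Function.eval e ⁻¹' {0} := rfl
  rw [h5, h4, poissonMeasure_real_singleton]
  simp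

open Classical in
/-- The main recursion. -/
theorem main_bound [Infinite Γ] (μ : GeneratingMeasure Γ) (Z lam : ℝ≥0)
    (hμ : ∀ i : Idx, ww i ≤ Z * μ.mass (AA Γ i)) (hlam : 64 * Z ≤ lam) (k : ℕ) :
    (1 : Γ) ∈ Rk Γ k ∧ ∀ x : Γ, 1 / 2 + 1 / 2 ^ (k + 1) ≤
      (multigraphLaw μ lam).real {ω | 4 ^ k ≤ (clus ω (tr x (Rk Γ k)) x).card} := by
  induction k with
  | zero =>
    have h1 : (1 : Γ) ∈ Rk Γ 0 := by simp [Rk]
    refine ⟨h1, fun x => ?_⟩
    have : {ω : Pairs Γ → ℕ | 4 ^ 0 ≤ (clus ω (tr x (Rk Γ 0)) x).card} = Set.univ := by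
      ext ω
      simp only [Set.mem_ofPred_eq, Set.mem_univ, iff_true, pow_zero]
      exact Finset.card_pos.2 ⟨x, self_mem_clus (by rw [mem_tr]; simpa using h1)⟩
    rw [this, probReal_univ]
    norm_num
  | succ k ih =>
    obtain ⟨h1, ih⟩ := ih
    refine ⟨by rw [Rk]; exact mem_union_left _ h1, fun x => ?_⟩
    have hgen := (exists_gens (Rk Γ k)).choose_spec
    have hgen1 : ∀ n, Disjoint (Rk Γ k) (mid (Rk Γ k) (gen (Rk Γ k) n)) := fun n => hgen.1 n
    have hgen2 : ∀ m n, m ≠ n → Disjoint (mid (Rk Γ k) (gen (Rk Γ k) m))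
        (mid (Rk Γ k) (gen (Rk Γ k) n)) := fun m n hmn => hgen.2 hmn
    set p : ℝ := 1 / 2 + 1 / 2 ^ (k + 1) with hp
    have hpow : (1 : ℝ) / 2 ^ (k + 1) ≤ 1 / 2 := by
      apply one_div_le_one_div_of_le (by norm_num)
      have : (1 : ℝ) ≤ 2 ^ k := one_le_pow₀ (by norm_num)
      rw [pow_succ]
      linarith
    have hpow0 : (0 : ℝ) < 1 / 2 ^ (k + 1) := by positivity
    set q : ℝ := 1 - Real.exp (-(1 / (4 * 8 ^ k))) with hq
    have hq1 : q ≤ 1 := by
      have := Real.exp_pos (-(1 / (4 * (8 : ℝ) ^ k)))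
      linarith
    have hq0 : 0 ≤ q := by
      have : Real.exp (-(1 / (4 * (8 : ℝ) ^ k))) ≤ 1 := by
        apply Real.exp_le_one_iff.2
        have : (0 : ℝ) ≤ 1 / (4 * 8 ^ k) := by positivity
        linarith
      linarith
    have hstep := step (indep_law μ lam) (Rk Γ k) h1 (m := 4) (n := nn k)
      (fun b i => gen (Rk Γ k) (Nat.pair b i)) (fun b i => hgen1 _)
      (fun b i b' i' hne => hgen2 _ _ (fun h => hne (by
        rw [Nat.pair_eq_pair] at h
        exact Prod.ext (Fin.ext h.1) (Fin.ext h.2))))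
      (Rk Γ (k + 1)) (by rw [Rk]; exact subset_union_left)
      (fun b i => by
        intro y hy
        rw [Rk]
        exact mem_union_right _ (mem_biUnion.2 ⟨(b, i), mem_univ _, hy⟩))
      (4 ^ k) p q (by linarith) (by linarith) hq0 hq1 ih
      (by
        intro v b i h
        rw [law_open]
        rw [hq]
        apply sub_le_sub_left
        apply Real.exp_le_exp.2
        apply neg_le_neg
        have hw : μ.weight s(v, v * gen (Rk Γ k) (Nat.pair b i)) = μ.mass (AA Γ ⟨k, (b, i)⟩) := by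
          show μ.mass (v⁻¹ * (v * gen (Rk Γ k) (Nat.pair b i))) = _
          rw [inv_mul_cancel_left]
          rfl
        show 1 / (4 * (8 : ℝ) ^ k) ≤ lam * (μ.weight s(v, v * gen (Rk Γ k) (Nat.pair b i)) : ℝ≥0)
        rw [hw]
        have h2 := hμ ⟨k, (b, i)⟩
        rw [ww, ← ENNReal.coe_mul, ENNReal.ofReal_le_iff_le_toReal ENNReal.coe_ne_top,
          ENNReal.coe_toReal, NNReal.coe_mul] at h2
        have h3 : (64 : ℝ) * Z ≤ lam := by exact_mod_cast hlam
        have h4 : (0 : ℝ) ≤ μ.mass (AA Γ ⟨k, (b, i)⟩) := NNReal.coe_nonneg _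
        calc 1 / (4 * (8 : ℝ) ^ k) = 64 * (1 / (256 * 8 ^ k)) := by ring
          _ ≤ 64 * (Z * μ.mass (AA Γ ⟨k, (b, i)⟩)) := by linarith
          _ = (64 * Z) * μ.mass (AA Γ ⟨k, (b, i)⟩) := by ring
          _ ≤ lam * μ.mass (AA Γ ⟨k, (b, i)⟩) := mul_le_mul_of_nonneg_right h3 h4) x
    have hnum := num3 k p (by linarith) (by linarith)
    have hset : {ω : Pairs Γ → ℕ | 4 * 4 ^ k ≤ (clus ω (tr x (Rk Γ (k + 1))) x).card} =
        {ω | 4 ^ (k + 1) ≤ (clus ω (tr x (Rk Γ (k + 1))) x).card} := by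
      rw [pow_succ, mul_comm]
    rw [hset] at hstep
    refine le_trans ?_ hstep
    rw [← hq] at hnum
    have hp1 : p ≤ 1 := by linarith
    have hp0 : 0 ≤ p := by linarith
    set δ : ℝ := 4 * (1 - p * (1 - (1 - q) ^ 4 ^ k)) ^ nn k with hδ
    have e1 : (1 : ℝ) / 2 ^ (k + 1) = 2 * (1 / 2 ^ (k + 2)) := by
      rw [pow_succ, pow_succ]
      field_simp
      ring
    have e2 : p * (1 / 2 ^ (k + 2)) ≤ 1 / 2 ^ (k + 2) := by
      have : (0 : ℝ) ≤ 1 / 2 ^ (k + 2) := by positivity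
      nlinarith
    have e3 : p * δ ≤ p * (1 / 2 ^ (k + 2)) := mul_le_mul_of_nonneg_left hnum hp0
    push_cast
    rw [← hδ]
    have e4 : (1 : ℝ) / 2 ^ (k + 1 + 1) = 1 / 2 ^ (k + 2) := rfl
    rw [e4]
    rw [hp] at *
    linarith [e1, e2, e3]

/-- With probability at least one half, there is an infinite component. -/
theorem infinite_component [Infinite Γ] (μ : GeneratingMeasure Γ) (Z lam : ℝ≥0)
    (hμ : ∀ i : Idx, ww i ≤ Z * μ.mass (AA Γ i)) (hlam : 64 * Z ≤ lam) :
    multigraphLaw μ lam {ω | HasInfiniteComponent ω} ≠ 0 := by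
  classical
  set P := multigraphLaw μ lam with hP
  let E : ℕ → Set (Pairs Γ → ℕ) := fun k => {ω | 4 ^ k ≤ (clus ω (tr 1 (Rk Γ k)) 1).card}
  have hE : ∀ k, MeasurableSet (E k) := fun k =>
    (dep_clus (tr 1 (Rk Γ k)) 1 (fun c => 4 ^ k ≤ c.card)).measurableSet
  have hEP : ∀ k, ENNReal.ofReal (1 / 2) ≤ P (E k) := by
    intro k
    have h := (main_bound μ Z lam hμ hlam k).2 1
    rw [ENNReal.ofReal_le_iff_le_toReal (measure_ne_top _ _)]
    have : (0 : ℝ) < 1 / 2 ^ (k + 1) := by positivity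
    have h2 : P.real (E k) = (P (E k)).toReal := rfl
    rw [← h2]
    linarith
  have hlim : ENNReal.ofReal (1 / 2) ≤ P (⋂ n, ⋃ k, E (n + k)) := by
    have hanti : Antitone (fun n => ⋃ k, E (n + k)) := by
      intro a b hab ω hω
      rw [Set.mem_iUnion] at hω ⊢
      obtain ⟨k, hk⟩ := hω
      refine ⟨b - a + k, ?_⟩
      have : a + (b - a + k) = b + k := by omega
      rw [this]
      exact hk
    have ht := tendsto_measure_iInter_atTop (μ := P) (s := fun n => ⋃ k, E (n + k))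
      (fun n => (MeasurableSet.iUnion fun k => hE _).nullMeasurableSet) hanti
      ⟨0, measure_ne_top _ _⟩
    refine ge_of_tendsto' ht (fun n => ?_)
    exact (hEP n).trans (measure_mono (by
      intro ω hω
      exact Set.mem_iUnion.2 ⟨0, hω⟩))
  have hsub : (⋂ n, ⋃ k, E (n + k)) ⊆ {ω | HasInfiniteComponent ω} := by
    intro ω hω
    refine ⟨(openGraph ω).connectedComponentMk 1, ?_⟩
    intro hfin
    have hle : ∀ k, ω ∈ E k → 4 ^ k ≤ hfin.toFinset.card := by
      intro k hk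
      refine le_trans hk (Finset.card_le_card ?_)
      intro y hy
      rw [mem_clus] at hy
      rw [Set.Finite.mem_toFinset, SimpleGraph.ConnectedComponent.mem_supp_iff,
        SimpleGraph.ConnectedComponent.eq]
      have : ∀ a b, Relation.ReflTransGen (stepIn ω (tr 1 (Rk Γ k))) a b →
          (openGraph ω).Reachable a b := by
        intro a b hab
        induction hab with
        | refl => exact SimpleGraph.Reachable.refl _
        | tail _ h ih => exact ih.trans h.2.2.reachable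
      exact (this _ _ hy.2).symm
    obtain ⟨k, hk⟩ := Set.mem_iUnion.1 (Set.mem_iInter.1 hω hfin.toFinset.card)
    have h1 := hle _ hk
    have h2 := Nat.lt_pow_self (n := hfin.toFinset.card + k) (a := 4) (by norm_num)
    omega
  intro h0
  have h1 := hlim.trans (measure_mono hsub)
  rw [h0] at h1
  simp at h1

theorem lambdaC_lt_top [Infinite Γ] (μ : GeneratingMeasure Γ) (Z : ℝ≥0)
    (hμ : ∀ i : Idx, ww i ≤ Z * μ.mass (AA Γ i)) : lambdaC μ < ∞ := by
  refine lt_of_le_of_lt (b := ((64 * Z : ℝ≥0) : ℝ≥0∞)) ?_ ENNReal.coe_lt_top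
  refine sSup_le ?_
  rintro x ⟨lam, -, h0, rfl⟩
  by_contra hlt
  rw [not_le, ENNReal.coe_lt_coe] at hlt
  exact infinite_component μ Z lam hμ hlt.le h0

end Pool.Agent.W828.LRG
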